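import Pool.Agent.Lib.GBU.Div

/-!
# Approximation by functions with prescribed poles

`K` a global function field, `LL D` the functions with poles bounded by `D`. `exists_approx`: if the
degree of `D` is large compared with the conditions, then all the conditions
`x = y w + O (π_w ^ (n w - D w))`, `w ∈ S`, can be satisfied simultaneously by an `x ∈ LL D`.
`card_approx`: the number of the solutions.
-/

set_option autoImplicit false

namespace Pool.Agent.Hyp

open Pool.Agent.BSDFF Pool.Agent.GBC Pool.Agent.GBU IsLocalRing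

variable {k K : Type} [Field k] [Field K] [Algebra k K]

/-- The elements of order at least `n` at `w`. -/
def Ge (w : Place k K) (n : ℤ) : Submodule k K where
  carrier := {z | z = 0 ∨ n ≤ ord w z}
  add_mem' {a b} ha hb := by
    by_cases h : a + b = 0
    · exact Or.inl h
    rcases ha with rfl | ha
    · rw [zero_add]
      exact hb
    rcases hb with rfl | hb
    · rw [add_zero]
      exact Or.inr ha
    by_cases ha0 : a = 0
    · subst ha0
      rw [zero_add]
      exact Or.inr hb
    by_cases hb0 : b = 0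
    · subst hb0
      rw [add_zero]
      exact Or.inr ha
    exact Or.inr (le_trans (le_min ha hb) (min_le_ord_add w ha0 hb0 h))
  zero_mem' := Or.inl rfl
  smul_mem' c x hx := by
    by_cases hc : c = 0
    · left
      rw [hc, zero_smul]
    rcases hx with rfl | hx
    · left
      rw [smul_zero]
    by_cases hx0 : x = 0
    · left
      rw [hx0, smul_zero]
    · refine Or.inr ?_
      rw [Algebra.smul_def, ord_mul w (by simpa using hc) hx0, ord_const w hc, zero_add]
      exact hx

theorem mem_Ge {w : Place k K} {n : ℤ} {z : K} : z ∈ Ge w n ↔ z = 0 ∨ n ≤ ord w z := Iff.rfl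

theorem Ge_anti (w : Place k K) {m n : ℤ} (h : m ≤ n) : Ge w n ≤ Ge w m := by
  rintro z (hz | hz)
  · exact Or.inl hz
  · exact Or.inr (h.trans hz)

theorem mem_LL_iff_Ge {D : Place k K →₀ ℤ} {z : K} : z ∈ LL D ↔ ∀ w, z ∈ Ge w (-D w) := by
  rw [mem_LL]
  constructor
  · rintro (h | h) w
    · exact Or.inl h
    · exact Or.inr (h w)
  · intro h
    by_cases hz : z = 0
    · exact Or.inl hz
    · exact Or.inr fun w => (h w).resolve_left hz

theorem mem_Ge_zero {w : Place k K} {z : K} : z ∈ Ge w 0 ↔ z ∈ w.ring := by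
  rw [mem_Ge]
  rcases eq_or_ne z 0 with rfl | hz
  · exact ⟨fun _ => w.ring.zero_mem, fun _ => Or.inl rfl⟩
  · rw [mem_ring_iff w hz]
    exact ⟨fun h => h.resolve_left hz, Or.inr⟩

theorem mem_Ge_mul {w : Place k K} {n m : ℤ} {a z : K} (ha : a ≠ 0) (h : ord w a = m) :
    a * z ∈ Ge w (m + n) ↔ z ∈ Ge w n := by
  rw [mem_Ge, mem_Ge]
  rcases eq_or_ne z 0 with rfl | hz
  · rw [mul_zero]
    exact ⟨fun _ => Or.inl rfl, fun _ => Or.inl rfl⟩
  · rw [ord_mul w ha hz, h]
    constructor
    · rintro (h1 | h1)
      · exact absurd h1 (mul_ne_zero ha hz)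
      · exact Or.inr (by linarith)
    · rintro (h1 | h1)
      · exact absurd h1 hz
      · exact Or.inr (by linarith)

/-- The leading coefficient map on the elements of order at least `n`. -/
theorem exists_lead (w : Place k K) (n : ℤ) :
    letI := w.constMap.toAlgebra
    ∃ φ : Ge w n →ₗ[k] ResidueField w.ring, ∀ z : Ge w n, φ z = 0 ↔ (z : K) ∈ Ge w (n + 1) := by
  letI := w.constMap.toAlgebra
  obtain ⟨u, hu, hun⟩ := exists_ord w (-n)
  have hmem : ∀ z : Ge w n, u * (z : K) ∈ w.ring := fun z => by
    rw [← mem_Ge_zero]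
    have h1 := (mem_Ge_mul (n := n) (z := (z : K)) hu hun).2 z.2
    rwa [neg_add_cancel] at h1
  let φ : Ge w n →ₗ[k] ResidueField w.ring :=
    { toFun := fun z => residue w.ring ⟨u * (z : K), hmem z⟩
      map_add' := fun a b => by
        rw [← map_add]
        congr 1
        exact Subtype.ext (mul_add u (a : K) (b : K))
      map_smul' := fun c a => by
        have h1 : (⟨u * ((c • a : Ge w n) : K), hmem (c • a)⟩ : w.ring) =
            ⟨algebraMap k K c, w.const_mem c⟩ * ⟨u * (a : K), hmem a⟩ := by
          apply Subtype.ext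
          change u * (c • (a : K)) = algebraMap k K c * (u * (a : K))
          rw [Algebra.smul_def]
          ring
        rw [h1, map_mul]
        rfl }
  refine ⟨φ, fun z => ?_⟩
  change residue w.ring ⟨u * (z : K), hmem z⟩ = 0 ↔ _
  rw [residue_eq_zero_iff, ValuationSubring.valuation_lt_one_iff]
  change w.ring.valuation (u * (z : K)) < 1 ↔ _
  have h2 := mem_Ge_mul (w := w) (n := n + 1) (z := (z : K)) hu hun
  have h3 : -n + (n + 1) = 1 := by ring
  rw [h3] at h2
  rw [← h2, mem_Ge]
  rcases eq_or_ne (u * (z : K)) 0 with h0 | h0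
  · rw [h0, map_zero]
    exact ⟨fun _ => Or.inl rfl, fun _ => zero_lt_one⟩
  · rw [val_lt_one_iff w h0]
    exact ⟨Or.inr, fun h => h.resolve_left h0⟩

section geo

variable (G : Geo k K)

include G

/-- One condition. -/
theorem approx_step [Finite k] {C c : ℤ} (hc : ∀ D : Place k K →₀ ℤ, C ≤ degD D →
    (Module.finrank k (LL D) : ℤ) = degD D + c) {D : Place k K →₀ ℤ} {P : Place k K}
    (h : C ≤ degD (D - Finsupp.single P 1)) {y : K} (hy : y ∈ Ge P (-D P)) :
    ∃ x ∈ LL D, x - y ∈ Ge P (-D P + 1) := by
  classical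
  letI := P.constMap.toAlgebra
  obtain ⟨φ, hφ⟩ := exists_lead P (-D P)
  have hfin : Module.Finite k (LL D) := LL_finite G D
  let ι : LL D →ₗ[k] Ge P (-D P) := Submodule.inclusion fun z hz => mem_LL_iff_Ge.1 hz P
  have hker : LinearMap.ker (φ ∘ₗ ι) =
      (LL (D - Finsupp.single P 1)).comap (LL D).subtype := by
    ext z
    rw [LinearMap.mem_ker, Submodule.mem_comap]
    change φ (ι z) = 0 ↔ (z : K) ∈ LL (D - Finsupp.single P 1)
    rw [hφ]
    change (z : K) ∈ Ge P (-D P + 1) ↔ _
    rw [mem_LL_iff_Ge]
    constructor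
    · intro hz w
      rw [Finsupp.sub_apply]
      by_cases hw : w = P
      · subst hw
        rw [Finsupp.single_eq_same]
        have e : -(D w - 1) = -D w + 1 := by ring
        rw [e]
        exact hz
      · rw [Finsupp.single_eq_of_ne hw, sub_zero]
        exact mem_LL_iff_Ge.1 z.2 w
    · intro hz
      have h1 := hz P
      rw [Finsupp.sub_apply, Finsupp.single_eq_same] at h1
      have e : -(D P - 1) = -D P + 1 := by ring
      rwa [e] at h1
  have hle : LL (D - Finsupp.single P 1) ≤ LL D := LL_mono (by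
    intro w
    rw [Finsupp.sub_apply]
    have : (0 : ℤ) ≤ Finsupp.single P (1 : ℤ) w := by
      by_cases hw : w = P
      · subst hw
        rw [Finsupp.single_eq_same]
        norm_num
      · rw [Finsupp.single_eq_of_ne hw]
    linarith)
  have hdk : Module.finrank k (LinearMap.ker (φ ∘ₗ ι)) =
      Module.finrank k (LL (D - Finsupp.single P 1)) := by
    rw [hker]
    exact (Submodule.comapSubtypeEquivOfLe hle).finrank_eq
  have hrn := LinearMap.finrank_range_add_finrank_ker (φ ∘ₗ ι)
  have hd1 : degD D = degD (D - Finsupp.single P 1) + P.degree := by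
    have h1 : degD (D - Finsupp.single P (1 : ℤ)) = degD D - degD (Finsupp.single P (1 : ℤ)) := by
      rw [← degHom_apply, ← degHom_apply, ← degHom_apply, map_sub]
    rw [h1]
    have h2 : degD (Finsupp.single P (1 : ℤ)) = P.degree := by
      unfold degD
      rw [Finsupp.sum_single_index (mul_zero _), mul_one]
    rw [h2]
    ring
  have hC : C ≤ degD D := by
    rw [hd1]
    have : (0 : ℤ) ≤ P.degree := Int.natCast_nonneg _
    linarith
  have e1 := hc D hC
  have e2 := hc _ h
  have hrange : Module.finrank k (LinearMap.range (φ ∘ₗ ι)) = P.degree := by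
    rw [hdk] at hrn
    omega
  have hres : Module.finrank k (ResidueField P.ring) = P.degree := rfl
  have hpos := G.degree_pos P
  have hfr : Module.Finite k (ResidueField P.ring) :=
    Module.finite_of_finrank_pos (by rw [hres]; exact hpos)
  have htop : LinearMap.range (φ ∘ₗ ι) = ⊤ :=
    Submodule.eq_top_of_finrank_eq (by rw [hrange, hres])
  obtain ⟨x, hx⟩ : φ ⟨y, hy⟩ ∈ LinearMap.range (φ ∘ₗ ι) := by
    rw [htop]
    trivial
  refine ⟨x, x.2, ?_⟩
  have h3 : φ (ι x - ⟨y, hy⟩) = 0 := by
    rw [map_sub, ← hx]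
    exact sub_self _
  exact (hφ _).1 h3

/-- **Simultaneous conditions.** -/
theorem approx_all [Finite k] {C c : ℤ} (hc : ∀ D : Place k K →₀ ℤ, C ≤ degD D →
    (Module.finrank k (LL D) : ℤ) = degD D + c) (N : ℕ) :
    ∀ (E : Place k K →₀ ℕ), E.sum (fun _ n => n) = N → ∀ D : Place k K →₀ ℤ,
      C + E.sum (fun w n => (n : ℤ) * w.degree) ≤ degD D → ∀ y : Place k K → K,
      (∀ w, E w ≠ 0 → y w ∈ Ge w (-D w)) →
      ∃ x ∈ LL D, ∀ w, E w ≠ 0 → x - y w ∈ Ge w (-D w + E w) := by
  classical
  induction N with
  | zero =>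
    intro E hE D _ y _
    have h0 : E = 0 := by
      ext w
      by_contra hw
      have h1 : E w ≤ E.sum (fun _ n => n) := Finset.single_le_sum (f := fun w => E w)
        (fun _ _ => Nat.zero_le _) (Finsupp.mem_support_iff.2 hw)
      rw [hE] at h1
      exact hw (Nat.le_zero.1 h1)
    refine ⟨0, (LL D).zero_mem, fun w hw => ?_⟩
    rw [h0] at hw
    exact absurd rfl hw
  | succ N ih =>
    intro E hE D hD y hy
    obtain ⟨P, hP⟩ : ∃ P, E P ≠ 0 := by
      by_contra hcon
      push Not at hcon
      have h0 : E = 0 := by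
        ext w
        exact hcon w
      rw [h0, Finsupp.sum_zero_index] at hE
      omega
    -- one order less at `P`
    set E' : Place k K →₀ ℕ := E - Finsupp.single P 1 with hE'
    have hEP : E = E' + Finsupp.single P 1 := by
      rw [hE', tsub_add_cancel_of_le]
      rw [Finsupp.single_le_iff]
      omega
    have hsum : E.sum (fun w n => (n : ℤ) * w.degree) =
        E'.sum (fun w n => (n : ℤ) * w.degree) + P.degree := by
      rw [hEP, Finsupp.sum_add_index' (by simp) (by intros; push_cast; ring),
        Finsupp.sum_single_index (by simp)]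
      simp
    have hsum' : E'.sum (fun _ n => n) = N := by
      rw [hEP, Finsupp.sum_add_index' (by simp) (by simp),
        Finsupp.sum_single_index rfl] at hE
      omega
    have hnn : (0 : ℤ) ≤ E'.sum (fun w n => (n : ℤ) * w.degree) :=
      Finset.sum_nonneg fun w _ => by positivity
    have hd1 : degD (D - Finsupp.single P (1 : ℤ)) = degD D - P.degree := by
      have h1 : degD (D - Finsupp.single P (1 : ℤ)) = degD D - degD (Finsupp.single P (1 : ℤ)) := by
        rw [← degHom_apply, ← degHom_apply, ← degHom_apply, map_sub]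
      have h2 : degD (Finsupp.single P (1 : ℤ)) = P.degree := by
        unfold degD
        rw [Finsupp.sum_single_index (mul_zero _), mul_one]
      rw [h1, h2]
    obtain ⟨x₁, hx₁, h1⟩ := approx_step G hc (D := D) (P := P) (by rw [hd1]; linarith) (hy P hP)
    obtain ⟨x₂, hx₂, h2⟩ := ih E' hsum' (D - Finsupp.single P 1) (by rw [hd1]; linarith)
      (fun w => y w - x₁) (fun w hw => by
        rw [Finsupp.sub_apply]
        by_cases hwP : w = P
        · subst hwP
          rw [Finsupp.single_eq_same]
          have e : -(D w - 1) = -D w + 1 := by ring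
          rw [e, ← neg_sub]
          exact (Ge w _).neg_mem h1
        · rw [Finsupp.single_eq_of_ne hwP, sub_zero]
          have h3 : E w ≠ 0 := by
            rw [hEP, Finsupp.add_apply]
            omega
          exact (Ge w _).sub_mem (hy w h3) (mem_LL_iff_Ge.1 hx₁ w))
    have hle : LL (D - Finsupp.single P 1) ≤ LL D := LL_mono (by
      intro w
      rw [Finsupp.sub_apply]
      have : (0 : ℤ) ≤ Finsupp.single P (1 : ℤ) w := by
        by_cases hw : w = P
        · subst hw
          rw [Finsupp.single_eq_same]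
          norm_num
        · rw [Finsupp.single_eq_of_ne hw]
      linarith)
    refine ⟨x₁ + x₂, (LL D).add_mem hx₁ (hle hx₂), fun w hw => ?_⟩
    have e0 : x₁ + x₂ - y w = x₂ - (y w - x₁) := by ring
    rw [e0]
    by_cases hwP : w = P
    · subst hwP
      by_cases h5 : E' w = 0
      · have h6 : E w = 1 := by
          rw [hEP, Finsupp.add_apply, h5, Finsupp.single_eq_same]
        rw [h6, Nat.cast_one]
        have h7 : x₂ ∈ Ge w (-D w + 1) := by
          have h8 := mem_LL_iff_Ge.1 hx₂ w
          rw [Finsupp.sub_apply, Finsupp.single_eq_same] at h8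
          have e : -(D w - 1) = -D w + 1 := by ring
          rwa [e] at h8
        refine (Ge w _).sub_mem h7 ?_
        rw [← neg_sub]
        exact (Ge w _).neg_mem h1
      · have h6 := h2 w h5
        rw [Finsupp.sub_apply, Finsupp.single_eq_same] at h6
        have h7 : E w = E' w + 1 := by
          rw [hEP, Finsupp.add_apply, Finsupp.single_eq_same]
        have e : -(D w - 1) + (E' w : ℤ) = -D w + (E w : ℤ) := by
          rw [h7]
          push_cast
          ring
        rwa [e] at h6
    · have h5 : E' w = E w := by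
        rw [hEP, Finsupp.add_apply, Finsupp.single_eq_of_ne hwP, add_zero]
      have h6 := h2 w (by rw [h5]; exact hw)
      rwa [Finsupp.sub_apply, Finsupp.single_eq_of_ne hwP, sub_zero, h5] at h6

/-- **Simultaneous conditions**, with `E` the effective divisor of the conditions. -/
theorem exists_approx [Finite k] : ∃ C : ℤ, ∀ (E : Place k K →₀ ℕ) (D : Place k K →₀ ℤ),
    C + E.sum (fun w n => (n : ℤ) * w.degree) ≤ degD D → ∀ y : Place k K → K,
      (∀ w, E w ≠ 0 → y w ∈ Ge w (-D w)) →
      ∃ x ∈ LL D, ∀ w, E w ≠ 0 → x - y w ∈ Ge w (-D w + E w) := by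
  obtain ⟨c, C, hc⟩ := riemann_eq G
  exact ⟨C, fun E D hD y hy => approx_all G (fun D hD => (hc D).2 hD) _ E rfl D hD y hy⟩

omit G in
/-- An effective divisor as a divisor. -/
noncomputable def castD (E : Place k K →₀ ℕ) : Place k K →₀ ℤ :=
  E.mapRange (fun n : ℕ => (n : ℤ)) rfl

omit G in
theorem castD_apply (E : Place k K →₀ ℕ) (w : Place k K) : castD E w = E w := rfl

omit G in
/-- The conditions cut out a coset of `LL (D - E)`. -/
theorem mem_LL_sub_iff {E : Place k K →₀ ℕ} {D : Place k K →₀ ℤ} {z : K} :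
    z ∈ LL (D - castD E) ↔
      z ∈ LL D ∧ ∀ w, E w ≠ 0 → z ∈ Ge w (-D w + E w) := by
  rw [mem_LL_iff_Ge, mem_LL_iff_Ge]
  have e : ∀ w, -((D - castD E) w) = -D w + E w := fun w => by
    rw [Finsupp.sub_apply, castD_apply]
    ring
  constructor
  · intro h
    refine ⟨fun w => Ge_anti w ?_ (h w), fun w _ => by rw [← e]; exact h w⟩
    rw [e]
    have : (0 : ℤ) ≤ E w := Int.natCast_nonneg _
    linarith
  · rintro ⟨h1, h2⟩ w
    rw [e]
    by_cases hw : E w = 0
    · rw [hw, Nat.cast_zero, add_zero]
      exact h1 w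
    · exact h2 w hw

/-- **The number of the solutions** does not depend on the right-hand sides. -/
theorem card_approx [Finite k] : ∃ C : ℤ, ∀ (E : Place k K →₀ ℕ) (D : Place k K →₀ ℤ),
    C + E.sum (fun w n => (n : ℤ) * w.degree) ≤ degD D → ∀ y : Place k K → K,
      (∀ w, E w ≠ 0 → y w ∈ Ge w (-D w)) →
      {x : K | x ∈ LL D ∧ ∀ w, E w ≠ 0 → x - y w ∈ Ge w (-D w + E w)}.ncard =
        Nat.card (LL (D - castD E)) := by
  obtain ⟨C, hC⟩ := exists_approx G
  refine ⟨C, fun E D hD y hy => ?_⟩
  obtain ⟨x, hx, hxw⟩ := hC E D hD y hy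
  have h1 : {z : K | z ∈ LL D ∧ ∀ w, E w ≠ 0 → z - y w ∈ Ge w (-D w + E w)} =
      (fun z => x + z) '' (LL (D - castD E) : Set K) := by
    ext z
    constructor
    · rintro ⟨h2, h3⟩
      refine ⟨z - x, mem_LL_sub_iff.2 ⟨(LL D).sub_mem h2 hx, fun w hw => ?_⟩, by
        change x + (z - x) = z
        ring⟩
      have e : z - x = (z - y w) - (x - y w) := by ring
      rw [e]
      exact (Ge w _).sub_mem (h3 w hw) (hxw w hw)
    · rintro ⟨t, ht, rfl⟩
      obtain ⟨h2, h3⟩ := mem_LL_sub_iff.1 ht
      refine ⟨(LL D).add_mem hx h2, fun w hw => ?_⟩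
      have e : x + t - y w = (x - y w) + t := by ring
      change x + t - y w ∈ _
      rw [e]
      exact (Ge w _).add_mem (hxw w hw) (h3 w hw)
  rw [h1, Set.ncard_image_of_injective _ (add_right_injective x)]
  rfl

end geo

end Pool.Agent.Hyp
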